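import Mathlib

/-!
# A common multiple with small binomial coefficients divisible by `m`
-/

set_option autoImplicit false

namespace Pool.Agent.H88.SY

open Finset

/-- The period of the binomial coefficients `C(x, j)`, `j < k`, modulo `m`. -/
def per (m k : ℕ) : ℕ := ∏ p ∈ m.primeFactors, p ^ (m.factorization p - 1 + Nat.clog p k)

theorem per_pos (m k : ℕ) : 0 < per m k :=
  prod_pos fun _ hp => pow_pos (Nat.prime_of_mem_primeFactors hp).pos _

theorem per_le {m k : ℕ} (hm : 0 < m) (hk : 0 < k) : per m k ≤ m * k ^ m.primeFactors.card := by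
  unfold per
  have h1 : ∏ p ∈ m.primeFactors, p ^ m.factorization p = m :=
    Nat.prod_factorization_pow_eq_self hm.ne'
  calc ∏ p ∈ m.primeFactors, p ^ (m.factorization p - 1 + Nat.clog p k)
      ≤ ∏ p ∈ m.primeFactors, (p ^ m.factorization p * k) := by
        refine prod_le_prod' fun p hp => ?_
        have hpp := Nat.prime_of_mem_primeFactors hp
        have ha : 0 < m.factorization p :=
          hpp.factorization_pos_of_dvd hm.ne' (Nat.dvd_of_mem_primeFactors hp)
        rcases Nat.lt_or_ge 1 k with h | h
        · have h2 := Nat.pow_pred_clog_lt_self hpp.one_lt h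
          have h3 : 0 < Nat.clog p k := Nat.clog_pos hpp.one_lt h
          have h4 : m.factorization p - 1 + Nat.clog p k = m.factorization p + (Nat.clog p k - 1) := by
            omega
          rw [h4, pow_add]
          exact Nat.mul_le_mul_left _ h2.le
        · have h5 : k = 1 := by omega
          subst h5
          rw [Nat.clog_one_right, add_zero, mul_one]
          exact Nat.pow_le_pow_right hpp.pos (Nat.sub_le _ _)
    _ = m * k ^ m.primeFactors.card := by
        rw [prod_mul_distrib, h1, prod_const]

theorem dvd_choose_of_per_dvd {m k i N : ℕ} (hm : 0 < m) (hi : 0 < i) (hik : i < k)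
    (h : per m k ∣ N) : m ∣ N.choose i := by
  rcases Nat.eq_zero_or_pos N with hN | hN
  · subst hN
    obtain ⟨j, rfl⟩ : ∃ j, i = j + 1 := ⟨i - 1, by omega⟩
    simp
  rcases Nat.eq_zero_or_pos (N.choose i) with hx | hx
  · rw [hx]
    exact dvd_zero m
  have key : per m k ∣ i * N.choose i := by
    obtain ⟨j, rfl⟩ : ∃ j, i = j + 1 := ⟨i - 1, by omega⟩
    obtain ⟨N', rfl⟩ : ∃ N', N = N' + 1 := ⟨N - 1, by omega⟩
    have h1 := Nat.add_one_mul_choose_eq N' j
    rw [mul_comm (j + 1), ← h1]
    exact h.mul_right _
  rw [← Nat.factorization_le_iff_dvd hm.ne' hx.ne']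
  have h1 := (Nat.factorization_le_iff_dvd (per_pos m k).ne' (Nat.mul_pos hi hx).ne').mpr key
  intro p
  by_cases hp : p ∈ m.primeFactors
  · have hpp := Nat.prime_of_mem_primeFactors hp
    have h2 := h1 p
    rw [Nat.factorization_mul hi.ne' hx.ne', Finsupp.add_apply] at h2
    have h3 : m.factorization p - 1 + Nat.clog p k ≤ (per m k).factorization p := by
      rw [← hpp.pow_dvd_iff_le_factorization (per_pos m k).ne']
      exact dvd_prod_of_mem _ hp
    have h4 : i.factorization p < Nat.clog p k := by
      have h5 : p ^ i.factorization p ≤ i := Nat.ordProj_le p hi.ne'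
      have h6 : k ≤ p ^ Nat.clog p k := Nat.le_pow_clog hpp.one_lt k
      by_contra hcon
      push Not at hcon
      have h7 := Nat.pow_le_pow_right hpp.pos hcon
      omega
    omega
  · have h8 : m.factorization p = 0 := by
      rw [← Finsupp.notMem_support_iff, Nat.support_factorization]
      exact hp
    omega

end Pool.Agent.H88.SY
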