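import Mathlib

/-!
# The pigeonhole principle as a first-order sentence, and its models with few pigeons
-/

set_option autoImplicit false

namespace Pool.Agent.H88.SY

open FirstOrder FirstOrder.Language

/-- The relation symbols of the pigeonhole principle: `pig x` (x is a pigeon) and `sits x y`
(pigeon x sits in hole y). -/
inductive PRel : ℕ → Type
  | pig : PRel 1
  | sits : PRel 2

/-- The language of the pigeonhole principle. -/
def phpL : FirstOrder.Language.{0, 0} := ⟨fun _ => Empty, PRel⟩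

instance : phpL.IsRelational := fun _ => inferInstanceAs (IsEmpty Empty)

/-- `pig t` -/
def pigF {k : ℕ} (t : phpL.Term (Empty ⊕ Fin k)) : phpL.BoundedFormula Empty k :=
  .rel (PRel.pig : phpL.Relations 1) ![t]

/-- `sits t u` -/
def sitsF {k : ℕ} (t u : phpL.Term (Empty ⊕ Fin k)) : phpL.BoundedFormula Empty k :=
  .rel (PRel.sits : phpL.Relations 2) ![t, u]

/-- Every pigeon sits in a hole, no two pigeons sit in the same hole, no pigeon sits in two
holes; the holes are the elements which are not pigeons. -/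
def php : phpL.Sentence :=
  (∀' (pigF (&0) ⟹ ∃' (∼(pigF (&1)) ⊓ sitsF (&0) (&1)))) ⊓
  ((∀' ∀' ∀' (pigF (&0) ⟹ pigF (&1) ⟹ ∼(pigF (&2)) ⟹ sitsF (&0) (&2) ⟹ sitsF (&1) (&2) ⟹
    (&0 =' &1))) ⊓
  (∀' ∀' ∀' (pigF (&0) ⟹ ∼(pigF (&1)) ⟹ ∼(pigF (&2)) ⟹ sitsF (&0) (&1) ⟹ sitsF (&0) (&2) ⟹
    (&1 =' &2))))

/-- The structure with pigeons `M` and holes `Fin s`; pigeon `y` sits in hole `j y`. -/
@[instance_reducible]
def phpStr {s : ℕ} {M : Type} (j : M → Fin s) : phpL.Structure (Fin s ⊕ M) where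
  funMap := fun {_} f => (f : Empty).elim
  RelMap := fun {_} R x => match R, x with
    | PRel.pig, x => ∃ y : M, x 0 = Sum.inr y
    | PRel.sits, x => ∃ y : M, x 0 = Sum.inr y ∧ x 1 = Sum.inl (j y)

theorem php_realize {s : ℕ} {M : Type} (j : M → Fin s) (hj : Function.Injective j) :
    @Sentence.Realize phpL (Fin s ⊕ M) (phpStr j) php := by
  let _ := phpStr j
  have hp : ∀ {k : ℕ} (t : phpL.Term (Empty ⊕ Fin k)) (v : Empty → Fin s ⊕ M)
      (x : Fin k → Fin s ⊕ M), (pigF t).Realize v x ↔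
        ∃ y : M, t.realize (Sum.elim v x) = Sum.inr y :=
    fun t v x => Iff.rfl
  have hs : ∀ {k : ℕ} (t u : phpL.Term (Empty ⊕ Fin k)) (v : Empty → Fin s ⊕ M)
      (x : Fin k → Fin s ⊕ M), (sitsF t u).Realize v x ↔
        ∃ y : M, t.realize (Sum.elim v x) = Sum.inr y ∧
          u.realize (Sum.elim v x) = Sum.inl (j y) :=
    fun t u v x => Iff.rfl
  show BoundedFormula.Realize php _ _
  unfold php
  simp only [BoundedFormula.realize_inf, BoundedFormula.realize_all, BoundedFormula.realize_imp,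
    BoundedFormula.realize_ex, BoundedFormula.realize_not, BoundedFormula.realize_bdEqual, hp, hs]
  refine ⟨?_, ?_, ?_⟩
  · rintro a ⟨y, hy⟩
    have hy' : a = Sum.inr y := hy
    refine ⟨Sum.inl (j y), ?_, y, ?_, ?_⟩
    · rintro ⟨z, hz⟩
      have hz' : (Sum.inl (j y) : Fin s ⊕ M) = Sum.inr z := hz
      cases hz'
    · exact hy'
    · rfl
  · rintro a b c - - - ⟨y, hy, hy2⟩ ⟨z, hz, hz2⟩
    have h1 : a = Sum.inr y := hy
    have h2 : c = Sum.inl (j y) := hy2
    have h3 : b = Sum.inr z := hz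
    have h4 : c = Sum.inl (j z) := hz2
    show a = b
    rw [h2] at h4
    injection h4 with h5
    rw [h1, h3, hj h5]
  · rintro a b c - - - ⟨y, hy, hy2⟩ ⟨z, hz, hz2⟩
    have h1 : a = Sum.inr y := hy
    have h2 : b = Sum.inl (j y) := hy2
    have h3 : a = Sum.inr z := hz
    have h4 : c = Sum.inl (j z) := hz2
    show b = c
    rw [h1] at h3
    injection h3 with h5
    rw [h2, h4, h5]

theorem phpStr_pig {s : ℕ} {M : Type} (j : M → Fin s) (x : Fin 1 → Fin s ⊕ M) :
    @Structure.RelMap phpL (Fin s ⊕ M) (phpStr j) 1 PRel.pig x ↔ ∃ y : M, x 0 = Sum.inr y := Iff.rfl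

/-- A number `N` below `s`, at least `s - P`, with `n - N` a positive multiple of `P`. -/
theorem exists_size {P s n : ℕ} (hP : 0 < P) (hPs : P ≤ s) (hn : s < n) :
    ∃ N d : ℕ, N + 1 ≤ s ∧ s ≤ N + P ∧ n = N + d * P := by
  refine ⟨n - ((n - s) / P + 1) * P, (n - s) / P + 1, ?_, ?_, ?_⟩
  · have h1 := Nat.lt_div_mul_add hP (a := n - s)
    rw [add_mul, one_mul]
    omega
  · have h1 := Nat.div_mul_le_self (n - s) P
    rw [add_mul, one_mul]
    omega
  · have h1 := Nat.div_mul_le_self (n - s) P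
    rw [add_mul, one_mul]
    omega

end Pool.Agent.H88.SY
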