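import Pool.Agent.H93.SY.LiftM
import Pool.Agent.H88.SY.PhpModel
import Pool.Agent.H88.SY.Period

/-!
# Lower bounds for the functional and the bijective pigeonhole principle
-/

set_option autoImplicit false

namespace Pool.Agent.H88.SY

open FirstOrder FirstOrder.Language Pool.H93.SY

/-- Every hole gets a pigeon. -/
def onto : phpL.Sentence :=
  ∀' (∼(pigF (&0)) ⟹ ∃' (pigF (&1) ⊓ sitsF (&1) (&0)))

/-- The bijective pigeonhole principle. -/
def phpB : phpL.Sentence := php ⊓ onto

/-- The facts: the points of `Fin n` are pigeons, the points of `Fin s` are not. -/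
def pigeons (s n : ℕ) : Set (Atom phpL (Fin s ⊕ Fin n) × Bool) :=
  {x | ∃ p : Fin s ⊕ Fin n, x = (⟨1, PRel.pig, fun _ => p⟩, p.isRight)}

theorem phpB_realize {s : ℕ} {M : Type} (j : M → Fin s) (hj : Function.Bijective j) :
    @Sentence.Realize phpL (Fin s ⊕ M) (phpStr j) phpB := by
  let _ := phpStr j
  have hp : ∀ {k : ℕ} (t : phpL.Term (Empty ⊕ Fin k)) (v : Empty → Fin s ⊕ M)
      (x : Fin k → Fin s ⊕ M), (pigF t).Realize v x ↔
        ∃ y : M, t.realize (Sum.elim v x) = Sum.inr y :=
    fun t v x => Iff.rfl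
  have hs : ∀ {k : ℕ} (t u : phpL.Term (Empty ⊕ Fin k)) (v : Empty → Fin s ⊕ M)
      (x : Fin k → Fin s ⊕ M), (sitsF t u).Realize v x ↔
        ∃ y : M, t.realize (Sum.elim v x) = Sum.inr y ∧
          u.realize (Sum.elim v x) = Sum.inl (j y) :=
    fun t u v x => Iff.rfl
  show BoundedFormula.Realize (php ⊓ onto) _ _
  rw [BoundedFormula.realize_inf]
  refine ⟨php_realize j hj.1, ?_⟩
  unfold onto
  simp only [BoundedFormula.realize_inf, BoundedFormula.realize_all, BoundedFormula.realize_imp,
    BoundedFormula.realize_ex, BoundedFormula.realize_not, hp, hs]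
  intro a ha
  have ha' : ∀ y : M, a ≠ Sum.inr y := fun y hy => ha ⟨y, hy⟩
  cases a with
  | inr y => exact absurd rfl (ha' y)
  | inl h =>
    obtain ⟨y, hy⟩ := hj.2 h
    refine ⟨Sum.inr y, ⟨y, rfl⟩, y, rfl, ?_⟩
    rw [hy]
    rfl

theorem holds_pigeons {s n : ℕ} {M : Type} (j : M → Fin s) :
    @Holds phpL s n (pigeons s n) M (phpStr j) := by
  rintro v b ⟨p, hp⟩ f -
  rw [Prod.mk.injEq] at hp
  obtain ⟨hp1, hp2⟩ := hp
  subst hp1 hp2
  cases p with
  | inl a =>
    constructor
    · rintro ⟨y, hy⟩
      have hy' : (Sum.inl a : Fin s ⊕ M) = Sum.inr y := hy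
      cases hy'
    · intro h
      exact absurd h (by simp)
  | inr a =>
    constructor
    · intro _
      rfl
    · intro _
      exact ⟨f a, rfl⟩

/-- The functional pigeonhole principle: `N` pigeons can be seated, the counting gates do not
distinguish `N` and `n`. -/
theorem php_lower_fun {m N k s n : ℕ} (hN : N ≤ s) (h8 : 19 + 8 * k ≤ N)
    (hn : 19 + 64 * k ≤ n) (hd : ∀ i, 0 < i → i < k → m ∣ (max n N - min n N).choose i)
    (R : Refutation php m s n (pigeons s n)) : n.choose k ≤ R.size := by
  let j : Fin N → Fin s := Fin.castLE hN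
  have hj : Function.Injective j := Fin.castLE_injective hN
  have hq : qd php = 3 := rfl
  refine @final_lower phpL _ php m s n k (pigeons s n) (Fin N) (phpStr j) (php_realize j hj)
    (holds_pigeons j) ?_ ?_ R
  · rw [hq]
    omega
  · right
    refine ⟨inferInstance, ?_, ?_⟩
    · rw [hq, Nat.card_fin]
      omega
    · intro i hi hik
      rw [Nat.card_fin]
      exact hd i hi hik

/-- The bijective pigeonhole principle. -/
theorem php_lower_bij {m k s n : ℕ} (h8 : 19 + 8 * k ≤ s)
    (hn : 19 + 64 * k ≤ n) (hd : ∀ i, 0 < i → i < k → m ∣ (max n s - min n s).choose i)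
    (R : Refutation phpB m s n (pigeons s n)) : n.choose k ≤ R.size := by
  have hq : qd phpB = 3 := rfl
  refine @final_lower phpL _ phpB m s n k (pigeons s n) (Fin s) (phpStr (id : Fin s → Fin s))
    (phpB_realize id Function.bijective_id) (holds_pigeons id) ?_ ?_ R
  · rw [hq]
    omega
  · right
    refine ⟨inferInstance, ?_, ?_⟩
    · rw [hq, Nat.card_fin]
      omega
    · intro i hi hik
      rw [Nat.card_fin]
      exact hd i hi hik

/-- The size is at least `C(n, k)` with `k` of the order of `s ^ (1 / r)`, `r` the number of the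
prime divisors of `m`. -/
theorem php_lower_fun_all {m k s n : ℕ} (hm : 0 < m) (hk0 : 0 < k)
    (h4 : 4 * (m * k ^ m.primeFactors.card) ≤ s) (hk : 128 * (k + 1) ≤ s) (hsn : s < n)
    (R : Refutation php m s n (pigeons s n)) : n.choose k ≤ R.size := by
  have hP := per_pos m k
  have hPs : 4 * per m k ≤ s := (Nat.mul_le_mul_left 4 (per_le hm hk0)).trans h4
  obtain ⟨N, d, h1, h2, h3⟩ := exists_size hP (by omega : per m k ≤ s) hsn
  refine php_lower_fun (N := N) (by omega) (by omega) (by omega) ?_ R
  intro i hi hik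
  rw [show max n N - min n N = d * per m k by omega]
  exact dvd_choose_of_per_dvd hm hi hik (Dvd.intro_left d rfl)

end Pool.Agent.H88.SY
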