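import Mathlib

/-!
# Binomial coefficients: periodicity and an upper bound
-/

set_option autoImplicit false

namespace Pool.Agent.H88.SY

open Finset

/-- **Periodicity of binomial coefficients**, exact form. -/
theorem choose_mod_of_dvd {m k n N' s j : ℕ} (hN : N' ≤ n)
    (hd : ∀ i, 0 < i → i < k → m ∣ (n - N').choose i) (hs : s ≤ N') (hj : j < k) :
    (n - s).choose j ≡ (N' - s).choose j [MOD m] := by
  have h0 : n - s = (N' - s) + (n - N') := by omega
  rw [h0, Nat.add_choose_eq]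
  have h1 : ∑ ij ∈ antidiagonal j, (N' - s).choose ij.1 * (n - N').choose ij.2 ≡
      ∑ ij ∈ antidiagonal j, (if ij = (j, 0) then (N' - s).choose j else 0) [MOD m] := by
    refine Nat.ModEq.sum ?_
    rintro ⟨a, b⟩ hab
    rw [HasAntidiagonal.mem_antidiagonal] at hab
    simp only at hab
    rcases Nat.eq_zero_or_pos b with hb | hb
    · subst hb
      have ha : a = j := by omega
      subst ha
      simp
      exact Nat.ModEq.refl _
    · have hne : ((a, b) : ℕ × ℕ) ≠ (j, 0) := by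
        intro he
        rw [Prod.mk.injEq] at he
        omega
      rw [if_neg hne]
      have h2 : m ∣ (n - N').choose b := hd b hb (by omega)
      exact (Nat.modEq_zero_iff_dvd).mpr (h2.mul_left _)
  refine h1.trans ?_
  rw [Finset.sum_ite_eq' (antidiagonal j) (j, 0) (fun _ => (N' - s).choose j), if_pos (by simp)]

/-- A term of the binomial expansion of `65 ^ n = (1 + 64) ^ n`. -/
theorem choose_mul_le (n k : ℕ) (hk : k ≤ n) : n.choose k * 64 ^ (n - k) ≤ 65 ^ n := by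
  have h1 : (65 : ℕ) ^ n = ∑ i ∈ range (n + 1), 1 ^ i * 64 ^ (n - i) * n.choose i := by
    have h0 := add_pow (1 : ℕ) 64 n
    simpa using h0
  rw [h1]
  have h2 := Finset.single_le_sum (f := fun i => 1 ^ i * 64 ^ (n - i) * n.choose i)
    (fun i _ => Nat.zero_le _) (mem_range.2 (Nat.lt_succ_of_le hk))
  simpa [mul_comm] using h2

/-- `C(n,k) ≤ 2 ^ (n / 8)` for `64 k ≤ n`. -/
theorem choose_le_two_pow {n k : ℕ} (h : 64 * k ≤ n) : n.choose k ≤ 2 ^ (n / 8) := by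
  rcases Nat.eq_zero_or_pos k with hk | hk
  · subst hk
    simp
    exact Nat.one_le_two_pow
  have h1 := choose_mul_le n k (by omega)
  -- `65 ^ 64 ≤ 4 * 64 ^ 64` and `65 ^ 8 ≤ 2 * 64 ^ 8`
  set q := n / 64 with hq
  set r := n % 64 with hr
  have hn : n = 64 * q + r := (Nat.div_add_mod n 64).symm
  have hr64 : r < 64 := Nat.mod_lt _ (by norm_num)
  have hkq : k ≤ q := by omega
  have hn8 : n / 8 = 8 * q + r / 8 := by omega
  have e1 : (65 : ℕ) ^ 64 * 2 ^ 6 ≤ 64 ^ 64 * 2 ^ 8 := by norm_num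
  have e2 : ∀ s : ℕ, s < 64 → (65 : ℕ) ^ (64 + s) * 2 ^ 6 ≤ 64 ^ (64 + s) * 2 ^ (8 + s / 8) := by
    intro s hs
    interval_cases s <;> norm_num
  have h2 : (65 : ℕ) ^ n * 64 ^ k ≤ 64 ^ n * 2 ^ (n / 8) := by
    obtain ⟨p, hp⟩ : ∃ p, q = p + 1 := ⟨q - 1, by omega⟩
    have h3 : (65 : ℕ) ^ n * 64 ^ k ≤ 65 ^ n * 64 ^ q :=
      Nat.mul_le_mul_left _ (Nat.pow_le_pow_right (by norm_num) hkq)
    refine h3.trans ?_
    have key : ∀ a b : ℕ, a ^ (64 * p + (64 + r)) * (b * b ^ p) =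
        (a ^ 64 * b) ^ p * (a ^ (64 + r) * b) := by
      intro a b
      rw [pow_add a (64 * p) (64 + r), mul_pow, ← pow_mul]
      ring
    have key2 : ∀ a b : ℕ, a ^ (64 * p + (64 + r)) * b ^ (8 * p + (8 + r / 8)) =
        (a ^ 64 * b ^ 8) ^ p * (a ^ (64 + r) * b ^ (8 + r / 8)) := by
      intro a b
      rw [pow_add a (64 * p) (64 + r), pow_add b (8 * p) (8 + r / 8), mul_pow, ← pow_mul, ← pow_mul]
      ring
    have hn' : n = 64 * p + (64 + r) := by omega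
    have hn8' : n / 8 = 8 * p + (8 + r / 8) := by omega
    have h64 : (64 : ℕ) ^ q = 2 ^ 6 * (2 ^ 6) ^ p := by
      rw [hp, show (64 : ℕ) = 2 ^ 6 by norm_num, pow_succ, mul_comm]
    have h4 : (65 : ℕ) ^ n * 64 ^ q = (65 ^ 64 * 2 ^ 6) ^ p * (65 ^ (64 + r) * 2 ^ 6) := by
      rw [h64, ← key 65 (2 ^ 6), ← hn']
    have h5 : (64 : ℕ) ^ n * 2 ^ (n / 8) = (64 ^ 64 * 2 ^ 8) ^ p * (64 ^ (64 + r) * 2 ^ (8 + r / 8)) := by
      rw [← key2 64 2, ← hn', ← hn8']
    rw [h4, h5]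
    exact Nat.mul_le_mul (Nat.pow_le_pow_left e1 p) (e2 r hr64)
  have h6 : n.choose k * 64 ^ n ≤ 2 ^ (n / 8) * 64 ^ n := by
    calc n.choose k * 64 ^ n = n.choose k * 64 ^ (n - k) * 64 ^ k := by
          rw [mul_assoc, ← pow_add, Nat.sub_add_cancel (by omega)]
      _ ≤ 65 ^ n * 64 ^ k := Nat.mul_le_mul_right _ h1
      _ ≤ 64 ^ n * 2 ^ (n / 8) := h2
      _ = 2 ^ (n / 8) * 64 ^ n := mul_comm _ _
  exact Nat.le_of_mul_le_mul_right h6 (by positivity)

end Pool.Agent.H88.SY
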