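import Mathlib

/-!
# Binomial coefficients are periodic modulo m

If `k < 2 ^ r` and `N = N'` modulo `m ^ r` then `N.choose j = N'.choose j` modulo `m` for `j ≤ k`.
-/

set_option autoImplicit false

namespace Pool.Agent.H88.SY

open Finset

theorem dvd_of_pow_dvd_mul {m r i x : ℕ} (hi : 0 < i) (hir : i < 2 ^ r) (h : m ^ r ∣ i * x) : m ∣ x := by
  rcases Nat.eq_zero_or_pos r with hr | hr
  · subst hr
    simp only [pow_zero] at hir
    omega
  rcases Nat.eq_zero_or_pos x with hx | hx
  · subst hx
    exact dvd_zero m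
  rcases Nat.eq_zero_or_pos m with hm | hm
  · subst hm
    rw [zero_pow (by omega)] at h
    have h0 : i * x = 0 := Nat.eq_zero_of_zero_dvd h
    have h1 : 0 < i * x := Nat.mul_pos hi hx
    omega
  rw [← Nat.factorization_le_iff_dvd hm.ne' hx.ne']
  have h1 := (Nat.factorization_le_iff_dvd (pow_pos hm r).ne' (Nat.mul_pos hi hx).ne').mpr h
  intro p
  have h2 := h1 p
  rw [Nat.factorization_pow, Nat.factorization_mul hi.ne' hx.ne'] at h2
  simp only [Finsupp.smul_apply, smul_eq_mul, Finsupp.add_apply] at h2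
  by_cases hp : p.Prime
  · have h3 : i.factorization p < r := by
      have h4 : p ^ i.factorization p ≤ i := Nat.ordProj_le p hi.ne'
      by_contra hcon
      push Not at hcon
      have h5 : 2 ^ r ≤ p ^ i.factorization p :=
        (Nat.pow_le_pow_left hp.two_le r).trans (Nat.pow_le_pow_right hp.pos hcon)
      omega
    rcases Nat.eq_zero_or_pos (m.factorization p) with h0 | h0
    · omega
    · obtain ⟨a, ha⟩ : ∃ a, m.factorization p = a + 1 := ⟨m.factorization p - 1, by omega⟩
      rw [ha] at h2 ⊢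
      have h6 : r * (a + 1) = r * a + r := by ring
      have h7 : a ≤ r * a := Nat.le_mul_of_pos_left a hr
      omega
  · have h8 : m.factorization p = 0 := Nat.factorization_eq_zero_of_not_prime m hp
    omega

theorem dvd_choose_of_pow_dvd {m r i M : ℕ} (hi : 0 < i) (hir : i < 2 ^ r) (h : m ^ r ∣ M) :
    m ∣ M.choose i := by
  refine dvd_of_pow_dvd_mul hi hir ?_
  obtain ⟨j, rfl⟩ : ∃ j, i = j + 1 := ⟨i - 1, by omega⟩
  rcases Nat.eq_zero_or_pos M with hM | hM
  · subst hM
    simp
  · obtain ⟨M', rfl⟩ : ∃ M', M = M' + 1 := ⟨M - 1, by omega⟩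
    have h1 := Nat.add_one_mul_choose_eq M' j
    rw [mul_comm (j + 1), ← h1]
    exact h.mul_right _

theorem choose_add_modEq {m r j M : ℕ} (N : ℕ) (hj : j < 2 ^ r) (h : m ^ r ∣ M) :
    (N + M).choose j ≡ N.choose j [MOD m] := by
  rw [Nat.add_choose_eq]
  have h1 : ∑ ij ∈ antidiagonal j, N.choose ij.1 * M.choose ij.2 ≡
      ∑ ij ∈ antidiagonal j, (if ij = (j, 0) then N.choose j else 0) [MOD m] := by
    refine Nat.ModEq.sum ?_
    rintro ⟨a, b⟩ hab
    rw [HasAntidiagonal.mem_antidiagonal] at hab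
    simp only at hab
    rcases Nat.eq_zero_or_pos b with hb | hb
    · subst hb
      have ha : a = j := by omega
      subst ha
      simp
      exact Nat.ModEq.refl _
    · have hne : ((a, b) : ℕ × ℕ) ≠ (j, 0) := by
        intro he
        rw [Prod.mk.injEq] at he
        omega
      rw [if_neg hne]
      have h2 : m ∣ M.choose b := dvd_choose_of_pow_dvd hb (by omega) h
      exact (Nat.modEq_zero_iff_dvd).mpr (h2.mul_left _)
  refine h1.trans ?_
  rw [Finset.sum_ite_eq' (antidiagonal j) (j, 0) (fun _ => N.choose j), if_pos (by simp)]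

/-- **Periodicity of binomial coefficients.** -/
theorem choose_modEq {m r j N N' : ℕ} (hj : j < 2 ^ r) (h : N ≡ N' [MOD m ^ r]) :
    N.choose j ≡ N'.choose j [MOD m] := by
  rcases le_total N N' with hle | hle
  · obtain ⟨M, rfl⟩ := Nat.exists_eq_add_of_le hle
    have h1 : m ^ r ∣ M := by
      have h2 := (Nat.modEq_iff_dvd' hle).mp h
      simpa using h2
    exact (choose_add_modEq N hj h1).symm
  · obtain ⟨M, rfl⟩ := Nat.exists_eq_add_of_le hle
    have h1 : m ^ r ∣ M := by
      have h2 := (Nat.modEq_iff_dvd' hle).mp h.symm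
      simpa using h2
    exact choose_add_modEq N' hj h1

end Pool.Agent.H88.SY
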