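import Mathlib

/-!
# Extending partial injections to even permutations and renaming of worlds
-/

set_option autoImplicit false

namespace Pool.Agent.H88.SY

open Finset Equiv

variable {n : ℕ} {M : Type}

private theorem ia (σ : Perm (Fin n)) (x : Fin n) : σ⁻¹ (σ x) = x := σ.symm_apply_apply x

/-- A map which is injective on at most `n - 2` points of `Fin n` agrees there with an even
permutation. -/
theorem exists_even {D : Finset (Fin n)} {τ : Fin n → Fin n} (hτ : Set.InjOn τ D)
    (h : D.card + 2 ≤ n) : ∃ σ : Perm (Fin n), Perm.sign σ = 1 ∧ ∀ i ∈ D, σ i = τ i := by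
  classical
  let e0 : {x // x ∈ D} ≃ {x // x ∈ D.image τ} :=
    Equiv.ofBijective (fun x => ⟨τ x.1, mem_image_of_mem τ x.2⟩) (by
      constructor
      · intro x y hxy
        exact Subtype.ext (hτ x.2 y.2 (congrArg Subtype.val hxy))
      · rintro ⟨y, hy⟩
        obtain ⟨x, hx, rfl⟩ := mem_image.1 hy
        exact ⟨⟨x, hx⟩, rfl⟩)
  let σ0 : Perm (Fin n) := e0.extendSubtype
  have h0 : ∀ i ∈ D, σ0 i = τ i := by
    intro i hi
    exact Equiv.extendSubtype_apply_of_mem e0 i hi
  obtain ⟨a, ha, b, hb, hab⟩ : ∃ a ∈ Dᶜ, ∃ b ∈ Dᶜ, a ≠ b := by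
    rw [← Finset.one_lt_card]
    rw [card_compl, Fintype.card_fin]
    omega
  rw [mem_compl] at ha hb
  rcases Int.units_eq_one_or (Perm.sign σ0) with hs | hs
  · exact ⟨σ0, hs, h0⟩
  · refine ⟨σ0 * Equiv.swap a b, ?_, ?_⟩
    · rw [Perm.sign_mul, hs, Perm.sign_swap hab]
      simp
    · intro i hi
      have hia : i ≠ a := fun e => ha (e ▸ hi)
      have hib : i ≠ b := fun e => hb (e ▸ hi)
      rw [Perm.mul_apply, Equiv.swap_apply_of_ne_of_ne hia hib, h0 i hi]

/-- **Renaming.** Worlds `e` on `E` and `f` on `A ∪ B` which agree on `A`: the points of `B`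
outside `A` can be renamed by an even permutation which fixes `A` such that both worlds have a
common extension. -/
theorem rename {A B E : Finset (Fin n)} (hAE : A ⊆ E) {e f : Fin n → M}
    (he : Set.InjOn e E) (hfe : ∀ i ∈ A, f i = e i) (hf : Set.InjOn f (A ∪ B : Finset (Fin n)))
    (hn : E.card + B.card + 2 ≤ n) :
    ∃ (σ : Perm (Fin n)) (g : Fin n → M), Perm.sign σ = 1 ∧ (∀ i ∈ A, σ i = i) ∧
      (∀ i ∈ E, g i = e i) ∧ (∀ i ∈ A ∪ B, g (σ i) = f i) ∧
      Set.InjOn g (E ∪ B.image σ : Finset (Fin n)) := by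
  classical
  obtain ⟨U, hU, hUc⟩ : ∃ U : Finset (Fin n), U ⊆ Eᶜ ∧ U.card = B.card := by
    apply Finset.exists_subset_card_eq
    rw [card_compl, Fintype.card_fin]
    omega
  have hcard : Fintype.card {x // x ∈ B} = Fintype.card {x // x ∈ U} := by
    rw [Fintype.card_coe, Fintype.card_coe, hUc]
  let u : {x // x ∈ B} ≃ {x // x ∈ U} := Fintype.equivOfCardEq hcard
  let τ : Fin n → Fin n := fun i =>
    if i ∈ A then i else
      if h : ∃ j ∈ E, e j = f i then h.choose else
        if hB : i ∈ B then (u ⟨i, hB⟩).1 else i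
  have hτA : ∀ i ∈ A, τ i = i := fun i hi => if_pos hi
  have hτE : ∀ i, i ∉ A → (∃ j ∈ E, e j = f i) → τ i ∈ E ∧ e (τ i) = f i := by
    intro i hi h
    have h1 : τ i = h.choose := by
      show (if i ∈ A then i else _) = _
      rw [if_neg hi, dif_pos h]
    rw [h1]
    exact h.choose_spec
  have hτU : ∀ i, i ∉ A → (¬ ∃ j ∈ E, e j = f i) → ∀ hB : i ∈ B, τ i = (u ⟨i, hB⟩).1 := by
    intro i hi h hB
    show (if i ∈ A then i else _) = _
    rw [if_neg hi, dif_neg h, dif_pos hB]
  have hτU' : ∀ i, i ∉ A → (¬ ∃ j ∈ E, e j = f i) → i ∈ B → τ i ∉ E := by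
    intro i hi h hB
    rw [hτU i hi h hB]
    exact mem_compl.1 (hU (u ⟨i, hB⟩).2)
  -- the value of `e` at `τ i` if `τ i ∈ E`
  have hval : ∀ i ∈ A ∪ B, τ i ∈ E → e (τ i) = f i := by
    intro i hi hE
    by_cases hA : i ∈ A
    · rw [hτA i hA]
      exact (hfe i hA).symm
    · by_cases h : ∃ j ∈ E, e j = f i
      · exact (hτE i hA h).2
      · exact absurd hE (hτU' i hA h ((mem_union.1 hi).resolve_left hA))
  have hnot : ∀ i ∈ A ∪ B, τ i ∉ E → i ∉ A ∧ i ∈ B ∧ ¬ ∃ j ∈ E, e j = f i := by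
    intro i hi hE
    have hA : i ∉ A := by
      intro hA
      rw [hτA i hA] at hE
      exact hE (hAE hA)
    exact ⟨hA, (mem_union.1 hi).resolve_left hA, fun h => hE (hτE i hA h).1⟩
  have hτinj : Set.InjOn τ (A ∪ B : Finset (Fin n)) := by
    intro i hi j hj hij
    have hi' : i ∈ A ∪ B := hi
    have hj' : j ∈ A ∪ B := hj
    by_cases hE : τ i ∈ E
    · have h1 := hval i hi' hE
      have h2 := hval j hj' (hij ▸ hE)
      apply hf hi hj
      rw [← h1, ← h2, hij]
    · have hE' : τ j ∉ E := hij ▸ hE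
      obtain ⟨h1, h2, h3⟩ := hnot i hi' hE
      obtain ⟨h4, h5, h6⟩ := hnot j hj' hE'
      rw [hτU i h1 h3 h2, hτU j h4 h6 h5] at hij
      have h7 := u.injective (Subtype.ext hij)
      exact congrArg Subtype.val h7
  have hABn : (A ∪ B).card + 2 ≤ n := by
    have h1 := card_union_le A B
    have h2 := card_le_card hAE
    omega
  obtain ⟨σ, hσ1, hσ2⟩ := exists_even hτinj hABn
  refine ⟨σ, fun x => if x ∈ E then e x else f (σ⁻¹ x), hσ1, ?_, ?_, ?_, ?_⟩
  · intro i hi
    rw [hσ2 i (mem_union_left _ hi), hτA i hi]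
  · intro i hi
    exact if_pos hi
  · intro i hi
    show (if σ i ∈ E then e (σ i) else f (σ⁻¹ (σ i))) = f i
    split_ifs with hE
    · rw [hσ2 i hi] at hE ⊢
      exact hval i hi hE
    · rw [ia]
  · have key : ∀ y ∈ B.image σ, y ∉ E → ∃ i ∈ B, σ i = y ∧ i ∈ A ∪ B ∧ ¬ ∃ j ∈ E, e j = f i := by
      intro y hy hyE
      obtain ⟨i, hi, rfl⟩ := mem_image.1 hy
      have hi' : i ∈ A ∪ B := mem_union_right _ hi
      have h1 := hnot i hi' (by rw [← hσ2 i hi']; exact hyE)
      exact ⟨i, hi, rfl, hi', h1.2.2⟩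
    intro x hx y hy hxy
    have hx' : x ∈ E ∪ B.image σ := hx
    have hy' : y ∈ E ∪ B.image σ := hy
    simp only at hxy
    by_cases hxE : x ∈ E
    · by_cases hyE : y ∈ E
      · rw [if_pos hxE, if_pos hyE] at hxy
        exact he hxE hyE hxy
      · obtain ⟨i, hi, rfl, hi', h1⟩ := key y ((mem_union.1 hy').resolve_left hyE) hyE
        rw [if_pos hxE, if_neg hyE, ia] at hxy
        exact absurd ⟨x, hxE, hxy⟩ h1
    · obtain ⟨i, hi, rfl, hi', h1⟩ := key x ((mem_union.1 hx').resolve_left hxE) hxE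
      by_cases hyE : y ∈ E
      · rw [if_neg hxE, if_pos hyE, ia] at hxy
        exact absurd ⟨y, hyE, hxy.symm⟩ h1
      · obtain ⟨j, hj, rfl, hj', h2⟩ := key y ((mem_union.1 hy').resolve_left hyE) hyE
        rw [if_neg hxE, if_neg hyE, ia, ia] at hxy
        rw [hf hi' hj' hxy]

/-- Extension of a world to more points. -/
theorem extend {E : Finset (Fin n)} (S : Finset (Fin n)) {e : Fin n → M} (he : Set.InjOn e E)
    (hM : Infinite M ∨ (Finite M ∧ (E ∪ S).card ≤ Nat.card M)) :
    ∃ g : Fin n → M, (∀ i ∈ E, g i = e i) ∧ Set.InjOn g (E ∪ S : Finset (Fin n)) := by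
  classical
  induction S using Finset.induction_on with
  | empty =>
    refine ⟨e, fun _ _ => rfl, ?_⟩
    rw [union_empty]
    exact he
  | insert a S ha ih =>
    have hsub : E ∪ S ⊆ E ∪ insert a S := union_subset_union_right (subset_insert _ _)
    obtain ⟨g, hg1, hg2⟩ := ih (by
      rcases hM with hM | ⟨hM, hc⟩
      · exact Or.inl hM
      · exact Or.inr ⟨hM, (card_le_card hsub).trans hc⟩)
    by_cases haE : a ∈ E ∪ S
    · refine ⟨g, hg1, ?_⟩
      have : E ∪ insert a S = E ∪ S := by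
        rw [union_insert, insert_eq_of_mem haE]
      rw [this]
      exact hg2
    · obtain ⟨b, hb⟩ : ∃ b : M, b ∉ (E ∪ S).image g := by
        rcases hM with hM | ⟨hM, hc⟩
        · exact Infinite.exists_notMem_finset _
        · by_contra hcon
          push Not at hcon
          have := Fintype.ofFinite M
          have h1 : (univ : Finset M) ⊆ (E ∪ S).image g := fun b _ => hcon b
          have h2 := (card_le_card h1).trans card_image_le
          rw [card_univ, ← Nat.card_eq_fintype_card] at h2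
          have h3 : E ∪ insert a S = insert a (E ∪ S) := union_insert _ _ _
          rw [h3, card_insert_of_notMem haE] at hc
          omega
      refine ⟨Function.update g a b, ?_, ?_⟩
      · intro i hi
        have hia : i ≠ a := fun e => haE (e ▸ mem_union_left _ hi)
        rw [Function.update_of_ne hia]
        exact hg1 i hi
      · have h3 : E ∪ insert a S = insert a (E ∪ S) := union_insert _ _ _
        rw [h3]
        intro x hx y hy hxy
        have hx' : x = a ∨ x ∈ E ∪ S := mem_insert.1 hx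
        have hy' : y = a ∨ y ∈ E ∪ S := mem_insert.1 hy
        by_cases hxa : x = a
        · by_cases hya : y = a
          · rw [hxa, hya]
          · rw [hxa, Function.update_self, Function.update_of_ne hya] at hxy
            exact absurd (mem_image.2 ⟨y, hy'.resolve_left hya, hxy.symm⟩) hb
        · by_cases hya : y = a
          · rw [hya, Function.update_self, Function.update_of_ne hxa] at hxy
            exact absurd (mem_image.2 ⟨x, hx'.resolve_left hxa, hxy⟩) hb
          · rw [Function.update_of_ne hxa, Function.update_of_ne hya] at hxy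
            exact hg2 (hx'.resolve_left hxa) (hy'.resolve_left hya) hxy

/-- Extension of a world to a bijection between a set of points and the finite structure. -/
theorem extend_bij [Finite M] {E : Finset (Fin n)} (S : Finset (Fin n)) {e : Fin n → M}
    (he : Set.InjOn e E) (h1 : (E ∪ S).card ≤ Nat.card M) (h2 : Nat.card M ≤ n) :
    ∃ (W : Finset (Fin n)) (g : Fin n → M), E ∪ S ⊆ W ∧ W.card = Nat.card M ∧
      (∀ i ∈ E, g i = e i) ∧ Set.BijOn g W Set.univ := by
  classical
  obtain ⟨W, hW1, hW2, hW3⟩ : ∃ W : Finset (Fin n), E ∪ S ⊆ W ∧ W ⊆ univ ∧ W.card = Nat.card M := by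
    apply Finset.exists_subsuperset_card_eq (subset_univ _) h1
    rw [card_univ, Fintype.card_fin]
    exact h2
  have hEW : E ∪ W = W := union_eq_right.2 (subset_union_left.trans hW1)
  obtain ⟨g, hg1, hg2⟩ := extend W he (Or.inr ⟨inferInstance, by rw [hEW, hW3]⟩)
  rw [hEW] at hg2
  refine ⟨W, g, hW1, hW3, hg1, fun _ _ => Set.mem_univ _, hg2, ?_⟩
  have := Fintype.ofFinite M
  have h3 : W.image g = univ := by
    apply Finset.eq_univ_of_card
    rw [card_image_of_injOn hg2, hW3, Nat.card_eq_fintype_card]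
  intro b _
  have h4 : b ∈ W.image g := by
    rw [h3]
    exact mem_univ b
  obtain ⟨i, hi, hib⟩ := mem_image.1 h4
  exact ⟨i, hi, hib⟩

/-- Two bijections between sets of points and the finite structure differ by an even
permutation. -/
theorem conj_bij {A W W' : Finset (Fin n)} (hA : A ⊆ W) (hA' : A ⊆ W') {f f' : Fin n → M}
    (hf : Set.BijOn f W Set.univ) (hf' : Set.BijOn f' W' Set.univ) (hff : ∀ i ∈ A, f i = f' i)
    (hn : W.card + 2 ≤ n) :
    ∃ σ : Perm (Fin n), Perm.sign σ = 1 ∧ (∀ i ∈ A, σ i = i) ∧ W.image σ = W' ∧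
      ∀ i ∈ W, f' (σ i) = f i := by
  classical
  have h0 : ∀ i : Fin n, ∃ j, j ∈ W' ∧ f' j = f i := by
    intro i
    obtain ⟨j, hj, hj2⟩ := hf'.surjOn (Set.mem_univ (f i))
    exact ⟨j, hj, hj2⟩
  choose τ hτ1 hτ2 using h0
  have hinj : Set.InjOn τ W := by
    intro i hi j hj hij
    apply hf.injOn hi hj
    rw [← hτ2 i, ← hτ2 j, hij]
  obtain ⟨σ, hσ1, hσ2⟩ := exists_even hinj hn
  refine ⟨σ, hσ1, ?_, ?_, ?_⟩
  · intro i hi
    rw [hσ2 i (hA hi)]
    apply hf'.injOn (hτ1 i) (hA' hi)
    rw [hτ2 i, hff i hi]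
  · ext j
    rw [mem_image]
    constructor
    · rintro ⟨i, hi, rfl⟩
      rw [hσ2 i hi]
      exact hτ1 i
    · intro hj
      obtain ⟨i, hi, hi2⟩ := hf.surjOn (Set.mem_univ (f' j))
      refine ⟨i, hi, ?_⟩
      rw [hσ2 i hi]
      apply hf'.injOn (hτ1 i) hj
      rw [hτ2 i, hi2]
  · intro i hi
    rw [hσ2 i hi]
    exact hτ2 i

end Pool.Agent.H88.SY
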