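import Mathlib
import Pool.Agent.H88.SY.Binom

/-!
# Counting the elements with support inside W modulo m

`X` is a set with an action of `Perm (Fin n)` and an equivariant support function. `F` is a finite
subset of `X` invariant under the even permutations which fix `A` pointwise, `ι` an invariant
function on `F` with values in `ZMod m`. If `|W| = n` modulo `m ^ r`, `A ⊆ W` and all supports have
fewer than `2 ^ r` points outside `A`, then the sum of `ι` over the elements of `F` with support
inside `W` equals the sum over `F`.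
-/

set_option autoImplicit false

namespace Pool.Agent.H88.SY

open Finset Equiv

variable {n : ℕ}

/-- a three-cycle which replaces `b ∈ B` by `b' ∉ B` -/
private theorem exists_move {B : Finset (Fin n)} {A : Finset (Fin n)} {b b' u : Fin n} (hb : b ∈ B)
    (hb' : b' ∉ B) (hu : u ∉ B) (hub' : u ≠ b') (hbA : b ∉ A) (hb'A : b' ∉ A) (huA : u ∉ A) :
    ∃ g : Perm (Fin n), Perm.sign g = 1 ∧ (∀ a ∈ A, g a = a) ∧
      B.image g = insert b' (B.erase b) := by
  have hbb' : b ≠ b' := fun h => hb' (h ▸ hb)
  have hbu : b ≠ u := fun h => hu (h ▸ hb)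
  have key : ∀ x ∈ B, x ≠ b → (swap b u * swap b b') x = x := by
    intro x hx hxb
    have h2 : x ≠ b' := fun h => hb' (h ▸ hx)
    have h3 : x ≠ u := fun h => hu (h ▸ hx)
    rw [Perm.mul_apply, swap_apply_of_ne_of_ne hxb h2, swap_apply_of_ne_of_ne hxb h3]
  have keyb : (swap b u * swap b b') b = b' := by
    rw [Perm.mul_apply, swap_apply_left, swap_apply_of_ne_of_ne hbb'.symm hub'.symm]
  refine ⟨swap b u * swap b b', ?_, ?_, ?_⟩
  · rw [Perm.sign_mul, Perm.sign_swap hbb', Perm.sign_swap hbu]
    rfl
  · intro a ha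
    have h1 : a ≠ b := fun h => hbA (h ▸ ha)
    have h2 : a ≠ b' := fun h => hb'A (h ▸ ha)
    have h3 : a ≠ u := fun h => huA (h ▸ ha)
    rw [Perm.mul_apply, swap_apply_of_ne_of_ne h1 h2, swap_apply_of_ne_of_ne h1 h3]
  · ext y
    simp only [mem_image, mem_insert, mem_erase]
    constructor
    · rintro ⟨x, hx, rfl⟩
      by_cases hxb : x = b
      · left
        rw [hxb, keyb]
      · right
        rw [key x hx hxb]
        exact ⟨hxb, hx⟩
    · rintro (rfl | ⟨h1, h2⟩)
      · exact ⟨b, hb, keyb⟩
      · exact ⟨y, h2, key y h2 h1⟩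

/-- A function on finite sets which is invariant under the even permutations fixing `A` depends only
on the cardinality of subsets of the complement of `A`. -/
theorem eq_of_card_eq {β : Type*} {A : Finset (Fin n)} {f : Finset (Fin n) → β}
    (hf : ∀ g : Perm (Fin n), Perm.sign g = 1 → (∀ a ∈ A, g a = a) → ∀ B, f (B.image g) = f B)
    {j : ℕ} (hj : j + 2 ≤ n - A.card) :
    ∀ (B B' : Finset (Fin n)), Disjoint B A → Disjoint B' A → B.card = j → B'.card = j → f B = f B' := by
  have main : ∀ d : ℕ, ∀ B B' : Finset (Fin n), (B \ B').card = d → Disjoint B A → Disjoint B' A →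
      B.card = j → B'.card = j → f B = f B' := by
    intro d
    induction d with
    | zero =>
      intro B B' hd _ _ hB hB'
      have h1 : B ⊆ B' := by
        rw [Finset.card_eq_zero, sdiff_eq_empty_iff_subset] at hd
        exact hd
      have h2 : B = B' := eq_of_subset_of_card_le h1 (by omega)
      rw [h2]
    | succ d ih =>
      intro B B' hd hBA hB'A hB hB'
      obtain ⟨b, hb⟩ : (B \ B').Nonempty := Finset.card_pos.mp (by omega)
      have hd' : (B' \ B).card = d + 1 := by
        have e1 := Finset.card_sdiff_add_card_inter B B'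
        have e2 := Finset.card_sdiff_add_card_inter B' B
        rw [inter_comm] at e2
        omega
      obtain ⟨b', hb'⟩ : (B' \ B).Nonempty := Finset.card_pos.mp (by omega)
      rw [mem_sdiff] at hb hb'
      have hbA : b ∉ A := Finset.disjoint_left.mp hBA hb.1
      have hb'A : b' ∉ A := Finset.disjoint_left.mp hB'A hb'.1
      -- a point outside
      obtain ⟨u, hu⟩ : (univ \ (A ∪ insert b' B)).Nonempty := by
        refine Finset.card_pos.mp ?_
        have e3 := Finset.card_sdiff_add_card_inter (univ : Finset (Fin n)) (A ∪ insert b' B)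
        rw [univ_inter, card_univ, Fintype.card_fin] at e3
        have e4 : (A ∪ insert b' B).card ≤ A.card + (j + 1) := by
          refine (card_union_le _ _).trans ?_
          rw [card_insert_of_notMem hb'.2]
          omega
        omega
      simp only [mem_sdiff, mem_univ, true_and, mem_union, mem_insert, not_or] at hu
      obtain ⟨g, hg1, hg2, hg3⟩ := exists_move (A := A) hb.1 hb'.2 hu.2.2 hu.2.1 hbA hb'A hu.1
      rw [← hf g hg1 hg2 B, hg3]
      refine ih _ _ ?_ ?_ hB'A ?_ hB'
      · have h5 : insert b' (B.erase b) \ B' = (B \ B').erase b := by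
          ext x
          simp only [mem_sdiff, mem_insert, mem_erase]
          constructor
          · rintro ⟨rfl | h6, h7⟩
            · exact absurd hb'.1 h7
            · exact ⟨h6.1, h6.2, h7⟩
          · rintro ⟨h6, h7, h8⟩
            exact ⟨Or.inr ⟨h6, h7⟩, h8⟩
        rw [h5, card_erase_of_mem (mem_sdiff.mpr hb)]
        omega
      · rw [disjoint_insert_left]
        exact ⟨hb'A, disjoint_of_subset_left (erase_subset _ _) hBA⟩
      · rw [card_insert_of_notMem (fun h => hb'.2 (mem_of_mem_erase h)), card_erase_of_mem hb.1]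
        have : 0 < B.card := Finset.card_pos.mpr ⟨b, hb.1⟩
        omega
  intro B B' h1 h2 h3 h4
  exact main _ B B' rfl h1 h2 h3 h4

/-- **Counting modulo `m`.** -/
theorem sum_filter_support' {m k : ℕ} {X : Type*} [DecidableEq X] [MulAction (Perm (Fin n)) X]
    {supp : X → Finset (Fin n)} (hsupp : ∀ (g : Perm (Fin n)) (x : X), supp (g • x) = (supp x).image g)
    {A W : Finset (Fin n)} (hAW : A ⊆ W) {F : Finset X}
    (hF : ∀ g : Perm (Fin n), Perm.sign g = 1 → (∀ a ∈ A, g a = a) → ∀ x ∈ F, g • x ∈ F)
    {ι : X → ZMod m}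
    (hι : ∀ g : Perm (Fin n), Perm.sign g = 1 → (∀ a ∈ A, g a = a) → ∀ x ∈ F, ι (g • x) = ι x)
    (hk : ∀ x ∈ F, (supp x \ A).card < k ∧ (supp x \ A).card + 2 ≤ n - A.card)
    (hW : ∀ j, j < k → (n - A.card).choose j ≡ (W.card - A.card).choose j [MOD m]) :
    ∑ x ∈ F.filter (fun x => supp x ⊆ W), ι x = ∑ x ∈ F, ι x := by
  classical
  set U : Finset (Fin n) := univ \ A with hU
  have hUc : U.card = n - A.card := by
    rw [hU, card_sdiff_of_subset (subset_univ _), card_univ, Fintype.card_fin]
  set f : Finset (Fin n) → ZMod m := fun B => ∑ x ∈ F.filter (fun x => supp x \ A = B), ι x with hf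
  -- invariance
  have hinv : ∀ g : Perm (Fin n), Perm.sign g = 1 → (∀ a ∈ A, g a = a) → ∀ B, f (B.image g) = f B := by
    intro g hg1 hg2 B
    have hgA : A.image g = A := by
      ext y
      simp only [mem_image]
      constructor
      · rintro ⟨a, ha, rfl⟩
        rw [hg2 a ha]
        exact ha
      · intro hy
        exact ⟨y, hy, hg2 y hy⟩
    have hg1' : Perm.sign g⁻¹ = 1 := by
      rw [Perm.sign_inv]
      exact hg1
    have hg2' : ∀ a ∈ A, g⁻¹ a = a := by
      intro a ha
      rw [Perm.inv_eq_iff_eq]
      exact (hg2 a ha).symm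
    have himg : ∀ x, supp (g • x) \ A = (supp x \ A).image g := by
      intro x
      rw [hsupp, image_sdiff _ _ g.injective, hgA]
    symm
    refine Finset.sum_bij (fun x _ => g • x) ?_ ?_ ?_ ?_
    · intro x hx
      rw [mem_filter] at hx ⊢
      exact ⟨hF g hg1 hg2 x hx.1, by rw [himg, hx.2]⟩
    · intro x _ y _ hxy
      exact MulAction.injective g hxy
    · intro y hy
      rw [mem_filter] at hy
      refine ⟨g⁻¹ • y, ?_, smul_inv_smul g y⟩
      rw [mem_filter]
      refine ⟨hF g⁻¹ hg1' hg2' y hy.1, ?_⟩
      have h1 := himg (g⁻¹ • y)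
      rw [smul_inv_smul, hy.2] at h1
      exact (image_injective g.injective h1).symm
    · intro x hx
      rw [mem_filter] at hx
      exact (hι g hg1 hg2 x hx.1).symm
  -- the value on a set depends only on its cardinality
  have hval : ∀ j : ℕ, ∃ c : ZMod m, ∀ B, B ⊆ U → B.card = j → f B = c := by
    intro j
    by_cases hj : j + 2 ≤ n - A.card
    · by_cases hex : ∃ B0 : Finset (Fin n), B0 ⊆ U ∧ B0.card = j
      · obtain ⟨B0, hB0, hB0c⟩ := hex
        refine ⟨f B0, fun B hB hBc => ?_⟩
        refine eq_of_card_eq hinv hj B B0 ?_ ?_ hBc hB0c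
        · exact disjoint_of_subset_left hB disjoint_sdiff_self_left
        · exact disjoint_of_subset_left hB0 disjoint_sdiff_self_left
      · refine ⟨0, fun B hB hBc => absurd ⟨B, hB, hBc⟩ hex⟩
    · refine ⟨0, fun B hB hBc => ?_⟩
      rw [hf]
      simp only
      rw [filter_eq_empty_iff.mpr, sum_empty]
      intro x hx hxB
      have := (hk x hx).2
      rw [hxB, hBc] at this
      exact hj this
  have hbig : ∀ j : ℕ, k ≤ j → ∀ B, B.card = j → f B = 0 := by
    intro j hj B hBc
    rw [hf]
    simp only
    rw [filter_eq_empty_iff.mpr, sum_empty]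
    intro x hx hxB
    have := (hk x hx).1
    rw [hxB, hBc] at this
    omega
  choose c hc using hval
  -- general counting over the subsets of a set `V ⊆ U`
  have hcount : ∀ V : Finset (Fin n), V ⊆ U →
      ∑ x ∈ F.filter (fun x => supp x \ A ⊆ V), ι x =
        ∑ j ∈ range (n + 1), if j < k then (V.card.choose j : ZMod m) * c j else 0 := by
    intro V hV
    have h1 : ∑ x ∈ F.filter (fun x => supp x \ A ⊆ V), ι x = ∑ B ∈ V.powerset, f B := by
      rw [← Finset.sum_fiberwise_of_maps_to (s := F.filter (fun x => supp x \ A ⊆ V)) (t := V.powerset)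
        (g := fun x => supp x \ A) (fun x hx => by
          rw [mem_filter] at hx
          exact mem_powerset.mpr hx.2)]
      refine Finset.sum_congr rfl fun B hB => ?_
      rw [hf]
      simp only
      rw [filter_filter]
      refine Finset.sum_congr ?_ fun _ _ => rfl
      ext x
      simp only [mem_filter]
      constructor
      · rintro ⟨h2, h3, h4⟩
        exact ⟨h2, h4⟩
      · rintro ⟨h2, h3⟩
        exact ⟨h2, by rw [h3]; exact mem_powerset.mp hB, h3⟩
    have hVn : V.card ≤ n := by
      have := card_le_univ V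
      rwa [Fintype.card_fin] at this
    have h5 : ∑ j ∈ range (n + 1), ∑ B ∈ powersetCard j V, f B = ∑ B ∈ V.powerset, f B := by
      rw [Finset.sum_powerset]
      symm
      refine Finset.sum_subset (range_subset_range.mpr (by omega)) ?_
      intro j _ hj
      rw [mem_range, not_lt] at hj
      rw [powersetCard_eq_empty.mpr (by omega), sum_empty]
    rw [h1, ← h5]
    refine Finset.sum_congr rfl fun j _ => ?_
    split_ifs with hjr
    · rw [Finset.sum_congr rfl (fun B hB => hc j B ((mem_powersetCard.mp hB).1.trans hV)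
        (mem_powersetCard.mp hB).2), sum_const, card_powersetCard, nsmul_eq_mul]
    · exact Finset.sum_eq_zero fun B hB => hbig j (by omega) B (mem_powersetCard.mp hB).2
  have hA1 := hcount U Subset.rfl
  have hA2 := hcount (W \ A) (sdiff_subset_sdiff (subset_univ _) Subset.rfl)
  have e1 : F.filter (fun x => supp x \ A ⊆ U) = F := by
    rw [filter_eq_self]
    intro x _
    exact sdiff_subset_sdiff (subset_univ _) Subset.rfl
  have e2 : F.filter (fun x => supp x \ A ⊆ W \ A) = F.filter (fun x => supp x ⊆ W) := by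
    refine filter_congr fun x _ => ?_
    constructor
    · intro h a ha
      by_cases haA : a ∈ A
      · exact hAW haA
      · exact (mem_sdiff.mp (h (mem_sdiff.mpr ⟨ha, haA⟩))).1
    · intro h
      exact sdiff_subset_sdiff h Subset.rfl
  rw [e1] at hA1
  rw [e2] at hA2
  rw [hA1, hA2]
  refine Finset.sum_congr rfl fun j _ => ?_
  split_ifs with hjr
  · congr 1
    rw [ZMod.natCast_eq_natCast_iff, hUc, card_sdiff_of_subset hAW]
    exact (hW j hjr).symm
  · rfl

/-- **Counting modulo `m`**, for sets `W` with `|W| = n` modulo `m ^ r`. -/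
theorem sum_filter_support {m r : ℕ} {X : Type*} [DecidableEq X] [MulAction (Perm (Fin n)) X]
    {supp : X → Finset (Fin n)} (hsupp : ∀ (g : Perm (Fin n)) (x : X), supp (g • x) = (supp x).image g)
    {A W : Finset (Fin n)} (hAW : A ⊆ W) {F : Finset X}
    (hF : ∀ g : Perm (Fin n), Perm.sign g = 1 → (∀ a ∈ A, g a = a) → ∀ x ∈ F, g • x ∈ F)
    {ι : X → ZMod m}
    (hι : ∀ g : Perm (Fin n), Perm.sign g = 1 → (∀ a ∈ A, g a = a) → ∀ x ∈ F, ι (g • x) = ι x)
    (hk : ∀ x ∈ F, (supp x \ A).card < 2 ^ r ∧ (supp x \ A).card + 2 ≤ n - A.card)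
    (hW : W.card ≡ n [MOD m ^ r]) :
    ∑ x ∈ F.filter (fun x => supp x ⊆ W), ι x = ∑ x ∈ F, ι x := by
  refine sum_filter_support' hsupp hAW hF hι hk ?_
  intro j hj
  refine choose_modEq hj ?_
  have hAn : A.card ≤ n := by
    have := card_le_univ A
    rwa [Fintype.card_fin] at this
  have hAWc : A.card ≤ W.card := card_le_card hAW
  have h6 : n - A.card + A.card ≡ W.card - A.card + A.card [MOD m ^ r] := by
    rw [Nat.sub_add_cancel hAWc, Nat.sub_add_cancel hAn]
    exact hW.symm
  exact Nat.ModEq.add_right_cancel' _ h6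

end Pool.Agent.H88.SY
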