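import Pool.Agent.H93.SY.Lower
import Pool.Agent.H88.SY.PhpModel
import Pool.Agent.H88.SY.Period

/-!
# The pigeonhole principle is hard for refutations with modular gates which are symmetric in the
pigeons
-/

set_option autoImplicit false

namespace Pool.Agent.H88.SY

open FirstOrder FirstOrder.Language Pool.H93.SY

/-- The facts: the points of `Fin n` are pigeons, the points of `Fin s` are not. -/
def pigFacts (s n : ℕ) : Set (Atom phpL (Fin s ⊕ Fin n) × Bool) :=
  {x | ∃ p : Fin s ⊕ Fin n, x = (⟨1, PRel.pig, fun _ => p⟩, p.isRight)}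

theorem php_lower {m P k s n : ℕ} (hP : 0 < P) (hPs : 4 * P ≤ s) (hk : 128 * (k + 1) ≤ s)
    (hsn : s < n) (hd : ∀ d i, 0 < i → i < k → m ∣ (d * P).choose i)
    (R : Refutation php m s n (pigFacts s n)) : n.choose k ≤ R.size := by
  obtain ⟨N, d, h1, h2, h3⟩ := exists_size hP (by omega : P ≤ s) hsn
  have hNs : N ≤ s := by omega
  let j : Fin N → Fin s := Fin.castLE hNs
  have hj : Function.Injective j := Fin.castLE_injective hNs
  have hq : qd php = 3 := rfl
  refine @lower_sum phpL _ php m s n k (pigFacts s n) (Fin N) (phpStr j) (php_realize j hj) ?_ ?_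
    ?_ ?_ R
  · rintro v b ⟨p, hp⟩ f -
    rw [Prod.mk.injEq] at hp
    obtain ⟨hp1, hp2⟩ := hp
    subst hp1 hp2
    cases p with
    | inl a =>
      constructor
      · rintro ⟨y, hy⟩
        have hy' : (Sum.inl a : Fin s ⊕ Fin N) = Sum.inr y := hy
        cases hy'
      · intro h
        exact absurd h (by simp)
    | inr a =>
      constructor
      · intro _
        rfl
      · intro _
        exact ⟨f a, rfl⟩
  · rw [hq]
    omega
  · right
    rw [hq, Nat.card_fin]
    omega
  · right
    refine ⟨inferInstance, ?_, ?_⟩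
    · rw [Nat.card_fin]
      omega
    · intro i hi hik
      rw [Nat.card_fin, show n - N = d * P by omega]
      exact hd d i hi hik

/-- The size is at least `C(n, k)` with `k` of the order of `s ^ (1 / r)`, `r` the number of the
prime divisors of `m`. -/
theorem php_lower_all {m k s n : ℕ} (hm : 0 < m) (hk0 : 0 < k)
    (h4 : 4 * (m * k ^ m.primeFactors.card) ≤ s) (hk : 128 * (k + 1) ≤ s) (hsn : s < n)
    (R : Refutation php m s n (pigFacts s n)) : n.choose k ≤ R.size := by
  refine php_lower (per_pos m k) ?_ hk hsn ?_ R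
  · exact (Nat.mul_le_mul_left 4 (per_le hm hk0)).trans h4
  · intro d i hi hik
    exact dvd_choose_of_per_dvd hm hi hik (Dvd.intro_left d rfl)

end Pool.Agent.H88.SY
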